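import Pool.Agent.Lib_helper41.LSP.Defs
import Pool.Agent.Lib_helper31.LSP.DefsO

/-!
# Part P: the principal part. Definitions.

`C` is the coefficient function (`CC E x`), `G` the kernel (`GG ρ`), `γ` Euler's constant.
-/

set_option autoImplicit false

namespace Pool.Agent.LSPP

open Pool.Agent.LSP (tau sg1 CC Gs Adm)
open Pool.Agent.LSPO (hyp cl KK rho b1 GOK)
open Pool.Agent.FG61 (mu phi cc)
open MeasureTheory Filter Topology

/-- Euler's constant -/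
noncomputable abbrev ga : ℝ := Real.eulerMascheroniConstant

/-- the truncated harmonic sum `∑_l (1/l) hyp(log(l/x))` -/
noncomputable def Hf (x : ℝ) : ℝ :=
  ∑ l ∈ Finset.Icc 1 ⌊2 * x⌋₊, 1 / (l : ℝ) * hyp (Real.log l - Real.log x)

/-- conditions on the coefficients -/
structure CK (κ X : ℝ) (Q : ℕ) (C : ℕ → ℝ) : Prop where
  size : (Q : ℝ) ≤ X ^ (1 + 101 / 50 * κ)
  bdd : ∀ n, 1 ≤ n → |C n| ≤ X ^ (κ / 100) / n

/-- the principal part after the summation over the moduli -/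
noncomputable def M5 (C : ℕ → ℝ) (G : ℝ → ℝ) (Q : ℕ) (S : Finset ℤ) (R : ℕ) (om Z : ℝ) : ℝ :=
  4 * Real.pi * ∑ n ∈ Finset.Icc 1 Q, C n * ∑ g ∈ S, tau g.natAbs *
    (KK G om ((g : ℝ) * Z / n) * ∑ c ∈ Finset.Icc 1 R,
      cc c n * cc c g.natAbs / (c * phi c) * (Real.log |(n : ℝ) - g * Z| / 2 + ga - Real.log c))

/-- the test function -/
noncomputable def th (s : ℝ) : ℝ :=
  if 1 / 2 ≤ s ∧ s ≤ 1 then (1 - s) ^ 3 * (2 * s - 1) ^ 3 else 0

/-- the average over the centre `t X`, `1 ≤ t ≤ 2` -/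
noncomputable def av (F : ℝ → ℝ) : ℝ := ∫ t in (1 : ℝ)..2, F t * (th (1 / t) / t)

/-- the kernel times `(1/2) log |1 - w|` -/
noncomputable def G1 (G : ℝ → ℝ) (w : ℝ) : ℝ := G w * Real.log |1 - w| / 2

/-- the average of the principal part -/
noncomputable def M6 (C : ℕ → ℝ) (G : ℝ → ℝ) (Q : ℕ) (S : Finset ℤ) (R : ℕ) (X : ℝ) : ℝ :=
  4 * Real.pi * ∑ n ∈ Finset.Icc 1 Q, C n * ∑ c ∈ Finset.Icc 1 R, cc c n / (c * phi c) *
    ((Real.log n / 2 + ga - Real.log c) *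
        ∑ g ∈ S, tau g.natAbs * cc c g.natAbs * av (fun t => G ((g : ℝ) * (t * X) / n)) +
      ∑ g ∈ S, tau g.natAbs * cc c g.natAbs * av (fun t => G1 G ((g : ℝ) * (t * X) / n)))

/-- `∫ θ` -/
noncomputable def I1 : ℝ := ∫ s in (1 / 2 : ℝ)..1, th s

/-- `∫ θ log` -/
noncomputable def I2 : ℝ := ∫ s in (1 / 2 : ℝ)..1, th s * Real.log s

/-- the smooth sum of the divisor function -/
noncomputable def DD (x : ℝ) : ℝ := ∑ g ∈ Finset.Icc 1 ⌊x⌋₊, tau g * th (g / x)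

/-- its remainder -/
noncomputable def R0 (x : ℝ) : ℝ := DD x - x * (I1 * (Real.log x + 2 * ga) + I2)

/-- the smooth sum of the divisor function times a Ramanujan sum -/
noncomputable def DDc (c : ℕ) (x : ℝ) : ℝ :=
  ∑ g ∈ Finset.Icc 1 ⌊x⌋₊, tau g * cc c g * th (g / x)

/-- its main term -/
noncomputable def Mc (c : ℕ) (x : ℝ) : ℝ :=
  phi c / c * x * (I1 * (Real.log x + 2 * ga - 2 * Real.log c) + I2)

/-- its remainder -/
noncomputable def Rc (c : ℕ) (x : ℝ) : ℝ := DDc c x - Mc c x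

/-- the integral of the remainder against the kernel -/
noncomputable def RR (F : ℝ → ℝ) (c : ℕ) (y : ℝ) : ℝ :=
  ∫ w in Set.Ioi (0 : ℝ), (F w + F (-w)) * Rc c (y * w) / w

/-- `∫ G(w) log |w| dw` -/
noncomputable def kapG (G : ℝ → ℝ) : ℝ := ∫ w : ℝ, G w * Real.log |w|

/-- the contribution of the remainders -/
noncomputable def M7 (C : ℕ → ℝ) (G : ℝ → ℝ) (Q R : ℕ) (X : ℝ) : ℝ :=
  ∑ n ∈ Finset.Icc 1 Q, C n * ∑ c ∈ Finset.Icc 1 R, cc c n / (c * phi c) *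
    ((Real.log n / 2 + ga - Real.log c) * RR G c (n / X) + RR (G1 G) c (n / X))

end Pool.Agent.LSPP
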